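import Mathlib
import Pool.Agent.W172.WL.Stm

set_option autoImplicit false

namespace Pool.Agent.W989.WL.Unif

open Pool.Agent.W172.WL MeasureTheory Set
open scoped ENNReal NNReal

theorem hol_cont {α : ℝ} {f : ℝ → ℝ} (hα : 0 < α) (h : Hol α f) : Continuous f := by
  obtain ⟨C, hC⟩ := h
  rw [continuous_iff_continuousAt]
  intro x
  rw [ContinuousAt, tendsto_iff_norm_sub_tendsto_zero]
  have h1 : Filter.Tendsto (fun y : ℝ => C * |y - x| ^ α) (nhds x) (nhds 0) := by
    have h2 : Continuous (fun y : ℝ => C * |y - x| ^ α) := by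
      refine continuous_const.mul (Continuous.rpow_const (by fun_prop) fun _ => Or.inr hα.le)
    have h3 := h2.tendsto x
    simpa [Real.zero_rpow hα.ne'] using h3
  exact squeeze_zero (fun y => norm_nonneg _) (fun y => hC y x) h1

theorem unif : S_FL2 → S_HOL → S_UNIF := by
  intro hFL hHOL b α hb hα0 hα1 g hg hL
  obtain ⟨M, hM⟩ := hL
  have hWc : Continuous (W b α g) := hol_cont hα0 (hHOL b α hb hα0 hα1 g hg)
  have hb0 : (0 : ℝ) < b := by
    have : 0 < b := by omega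
    exact_mod_cast this
  refine ⟨M ^ (1 / 2 : ℝ), fun n z hz A hA => ?_⟩
  have hFc : Continuous (F b α g n z) := by
    unfold F
    refine continuous_const.mul (hWc.comp ?_)
    fun_prop
  set ν : Measure ℝ := Measure.map (F b α g n z) (volume.restrict (Icc (0 : ℝ) 1)) with hν
  have hfin : IsFiniteMeasure ν := by
    rw [hν]
    infer_instance
  have hbn : (0 : ℝ) < (b : ℝ) ^ n := pow_pos hb0 n
  have hban : (0 : ℝ) < (b : ℝ) ^ (α * n) := Real.rpow_pos_of_pos hb0 _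
  -- the preimage of `A` under scaling
  set D : Set ℝ := (fun y => ((b : ℝ) ^ (α * n))⁻¹ * y) ⁻¹' A with hD
  have hDm : MeasurableSet D := hA.preimage (by fun_prop)
  have hDv : volume D = ENNReal.ofReal ((b : ℝ) ^ (α * n)) * volume A := by
    rw [hD, Real.volume_preimage_mul_left (inv_ne_zero hban.ne'), inv_inv, abs_of_pos hban]
  have hν1 : ν D ≤ (M : ℝ≥0∞) ^ (1 / 2 : ℝ) * (volume D) ^ (1 / 2 : ℝ) := by
    refine hFL ν M ?_ D hDm
    refine le_trans (le_of_eq ?_) (hM n z hz)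
    congr 1
    funext ξ
    congr 2
    rw [hν, integral_map hFc.measurable.aemeasurable]
    · rfl
    · exact (Continuous.aestronglyMeasurable (by fun_prop))
  set G : Set ℝ := {u | u ∈ Ico (0 : ℝ) 1 ∧ F b α g n z u ∈ D} with hG
  have hGν : volume G ≤ ν D := by
    rw [hν, Measure.map_apply hFc.measurable hDm,
      Measure.restrict_apply (hDm.preimage hFc.measurable)]
    refine measure_mono ?_
    rintro u ⟨hu1, hu2⟩
    exact ⟨hu2, Ico_subset_Icc_self hu1⟩
  have hE : {x : ℝ | x ∈ Ico ((z : ℝ) / (b : ℝ) ^ n) (((z : ℝ) + 1) / (b : ℝ) ^ n) ∧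
      W b α g x ∈ A} = (fun x => (b : ℝ) ^ n * x) ⁻¹' ((fun x => x + (-(z : ℝ))) ⁻¹' G) := by
    ext x
    simp only [mem_setOf_eq, mem_preimage, hG, hD, F, mem_Ico]
    have e1 : ((z : ℝ) + ((b : ℝ) ^ n * x + -(z : ℝ))) / (b : ℝ) ^ n = x := by
      field_simp
      ring
    rw [e1, inv_mul_cancel_left₀ hban.ne', div_le_iff₀ hbn, lt_div_iff₀ hbn]
    constructor
    · rintro ⟨⟨h1, h2⟩, h3⟩
      exact ⟨⟨by linarith, by linarith⟩, h3⟩
    · rintro ⟨⟨h1, h2⟩, h3⟩
      exact ⟨⟨by linarith, by linarith⟩, h3⟩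
  rw [hE, Real.volume_preimage_mul_left hbn.ne', measure_preimage_add_right]
  rw [abs_of_pos (inv_pos.2 hbn)]
  calc ENNReal.ofReal ((b : ℝ) ^ n)⁻¹ * volume G
      ≤ ENNReal.ofReal ((b : ℝ) ^ n)⁻¹ *
        ((M : ℝ≥0∞) ^ (1 / 2 : ℝ) * (volume D) ^ (1 / 2 : ℝ)) := by
        gcongr
        exact hGν.trans hν1
    _ = ((M ^ (1 / 2 : ℝ) : ℝ≥0) : ℝ≥0∞) * ENNReal.ofReal ((b : ℝ) ^ (-((1 - α / 2) * n))) *
        (volume A) ^ (1 / 2 : ℝ) := by
        rw [hDv, ENNReal.mul_rpow_of_nonneg _ _ (by norm_num : (0 : ℝ) ≤ 1 / 2),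
          ENNReal.ofReal_rpow_of_pos hban, ENNReal.coe_rpow_of_nonneg _ (by norm_num)]
        have e2 : ENNReal.ofReal ((b : ℝ) ^ (-((1 - α / 2) * n))) =
            ENNReal.ofReal ((b : ℝ) ^ n)⁻¹ *
              ENNReal.ofReal (((b : ℝ) ^ (α * n)) ^ (1 / 2 : ℝ)) := by
          rw [← ENNReal.ofReal_mul (by positivity)]
          congr 1
          rw [← Real.rpow_mul hb0.le, ← Real.rpow_natCast, ← Real.rpow_neg hb0.le,
            ← Real.rpow_add hb0]
          congr 1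
          ring
        rw [e2]
        ring

end Pool.Agent.W989.WL.Unif
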