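import Mathlib
import Pool.Agent.W172.WL.Stm

set_option autoImplicit false

namespace Pool.Agent.W989.WL.Vols

open Pool.Agent.W172.WL MeasureTheory Set
open scoped ENNReal NNReal

theorem ez_hi (b n z s : ℕ) (hb : 2 ≤ b) (u : ℝ) (hu : 0 ≤ u) :
    Ez b n z u (n + (s + 1)) = ⌊(b : ℝ) ^ (s + 1) * u⌋₊ % b := by
  have hb0 : (0 : ℝ) < b := by
    have : 0 < b := by omega
    exact_mod_cast this
  unfold Ez
  have e : (b : ℝ) ^ (n + (s + 1)) * (((z : ℝ) + u) / (b : ℝ) ^ n) =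
      (b : ℝ) ^ (s + 1) * u + ((b ^ (s + 1) * z : ℕ) : ℝ) := by
    rw [pow_add]
    push_cast
    field_simp
    ring
  rw [e, Nat.floor_add_natCast (by positivity)]
  have : b ^ (s + 1) * z = b * (b ^ s * z) := by ring
  rw [this, Nat.add_mul_mod_self_left]

theorem ez_lo (b n z j : ℕ) (hb : 2 ≤ b) (u : ℝ) (hu : u ∈ Ico (0 : ℝ) 1) (hj : j ≤ n) :
    Ez b n z u j = (z / b ^ (n - j)) % b := by
  have hb0 : (0 : ℝ) < b := by
    have : 0 < b := by omega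
    exact_mod_cast this
  unfold Ez
  have e : (b : ℝ) ^ j * (((z : ℝ) + u) / (b : ℝ) ^ n) = ((z : ℝ) + u) / ((b ^ (n - j) : ℕ) : ℝ) := by
    obtain ⟨m, rfl⟩ : ∃ m, n = j + m := ⟨n - j, by omega⟩
    rw [pow_add, Nat.add_sub_cancel_left]
    push_cast
    field_simp
  rw [e, Nat.floor_div_natCast]
  congr 2
  rw [Nat.floor_eq_iff (by have := hu.1; positivity)]
  exact ⟨by linarith [hu.1], by linarith [hu.2]⟩

/-- digits of a point -/
noncomputable def dig (b : ℕ) (hb : 2 ≤ b) {P N : ℕ} (u : Fin P → ℝ) (v : Fin P × Fin N) : Fin b :=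
  ⟨⌊(b : ℝ) ^ ((v.2 : ℕ) + 1) * u v.1⌋₊ % b, Nat.mod_lt _ (by omega)⟩

variable {b n z P N : ℕ}

theorem cf_const (hb : 2 ≤ b) (U : Set (Fin P → ℝ)) (hU0 : ∀ u ∈ U, ∀ a, u a ∈ Ico (0 : ℝ) 1)
    (v : Fin P × Fin N) (e : ℕ) (hU : ∀ u ∈ U, Ez b n z (u v.1) (n + ((v.2 : ℕ) + 1)) = e) :
    ∃ cf : Option (Fin b) × (Fin P × Fin N), (cf.1 = none → cf.2 ≠ v) ∧ ∀ u ∈ U,
      (cf.1 = none → dig b hb u v = dig b hb u cf.2) ∧
      ∀ d, cf.1 = some d → dig b hb u v = d := by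
  refine ⟨(some ⟨e % b, Nat.mod_lt _ (by omega)⟩, v), fun h => by simp at h, fun u hu =>
    ⟨fun h => by simp at h, fun d hd => ?_⟩⟩
  have hd' := Option.some.inj hd
  rw [← hd']
  apply Fin.ext
  have h1 := hU u hu
  rw [ez_hi b n z _ hb _ (hU0 u hu v.1).1] at h1
  show ⌊(b : ℝ) ^ ((v.2 : ℕ) + 1) * u v.1⌋₊ % b = e % b
  rw [← h1, Nat.mod_mod]

theorem cf_eq (hb : 2 ≤ b) (U : Set (Fin P → ℝ)) (hU0 : ∀ u ∈ U, ∀ a, u a ∈ Ico (0 : ℝ) 1)
    (v : Fin P × Fin N) (a' : Fin P) (m : ℕ) (hm : m ≤ n + N)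
    (hne : (a', m) ≠ (v.1, n + ((v.2 : ℕ) + 1)))
    (hU : ∀ u ∈ U, Ez b n z (u v.1) (n + ((v.2 : ℕ) + 1)) = Ez b n z (u a') m) :
    ∃ cf : Option (Fin b) × (Fin P × Fin N), (cf.1 = none → cf.2 ≠ v) ∧ ∀ u ∈ U,
      (cf.1 = none → dig b hb u v = dig b hb u cf.2) ∧
      ∀ d, cf.1 = some d → dig b hb u v = d := by
  by_cases h : m ≤ n
  · refine cf_const (n := n) (z := z) hb U hU0 v ((z / b ^ (n - m)) % b) fun u hu => ?_
    rw [hU u hu, ez_lo b n z m hb _ (hU0 u hu a') h]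
  · obtain ⟨s', rfl⟩ : ∃ s', m = n + (s' + 1) := ⟨m - n - 1, by omega⟩
    refine ⟨(none, (a', ⟨s', by omega⟩)), fun _ he => ?_, fun u hu => ⟨fun _ => ?_, fun d hd => by
      simp at hd⟩⟩
    · apply hne
      rw [← he]
    · apply Fin.ext
      have h1 := hU u hu
      rw [ez_hi b n z _ hb _ (hU0 u hu v.1).1, ez_hi b n z _ hb _ (hU0 u hu a').1] at h1
      exact h1

theorem card_S (P N K : ℕ) (hK : K + 2 ≤ N) (x y : Fin P → ℕ) :
    P * K ≤ (Finset.univ.filter (fun v : Fin P × Fin N => (v.2 : ℕ) < K + 2 ∧ (v.2 : ℕ) ≠ x v.1 ∧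
      (v.2 : ℕ) ≠ y v.1)).card := by
  classical
  rw [Finset.card_filter, Fintype.sum_prod_type]
  have h1 : ∀ a : Fin P, K ≤ ∑ s : Fin N, (if (s : ℕ) < K + 2 ∧ (s : ℕ) ≠ x a ∧
      (s : ℕ) ≠ y a then 1 else 0) := by
    intro a
    rw [← Finset.card_filter, ← Finset.card_map Fin.valEmbedding]
    have h2 : Finset.range (K + 2) \ {x a, y a} ⊆ ((Finset.univ.filter (fun s : Fin N =>
        (s : ℕ) < K + 2 ∧ (s : ℕ) ≠ x a ∧ (s : ℕ) ≠ y a)).map Fin.valEmbedding) := by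
      intro i hi
      simp only [Finset.mem_sdiff, Finset.mem_range, Finset.mem_insert, Finset.mem_singleton,
        not_or] at hi
      rw [Finset.mem_map]
      exact ⟨⟨i, by omega⟩, by simp [hi.1, hi.2.1, hi.2.2], rfl⟩
    refine le_trans ?_ (Finset.card_le_card h2)
    have h3 := Finset.le_card_sdiff ({x a, y a} : Finset ℕ) (Finset.range (K + 2))
    have h4 : ({x a, y a} : Finset ℕ).card ≤ 2 := Finset.card_le_two
    rw [Finset.card_range] at h3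
    omega
  calc P * K = ∑ _a : Fin P, K := by simp
    _ ≤ _ := Finset.sum_le_sum fun a _ => h1 a

theorem vols : S_GRAPH → S_BOX → S_VOLS := by
  classical
  intro hG hB b p L l n z hb hlL hz q1 e1 k1 q2 e2 k2 a1 a2 hq1 hk1 hq2 hk2
  set U : Set (Fin (2 * p) → ℝ) := {u : Fin (2 * p) → ℝ | (∀ a, u a ∈ Ico (0:ℝ) 1) ∧
    ∀ a, StrW b n z n L u a (q1 a) (e1 a) (a1 a) (k1 a) ∧
      StrW b n z (n + L) l u a (q2 a) (e2 a) (a2 a) (k2 a)} with hU
  have hU0 : ∀ u ∈ U, ∀ a, u a ∈ Ico (0 : ℝ) 1 := fun u hu => hu.1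
  obtain ⟨N, hkN, hN2⟩ : ∃ N : ℕ, (∀ a, k1 a + k2 a + (L + l) + (L + l + 2) ≤ N) ∧
      L + l + 2 ≤ N := by
    refine ⟨(L + l + 2) + (L + l) + ∑ a, (k1 a + k2 a), fun a => ?_, by omega⟩
    have h' : k1 a + k2 a ≤ ∑ a, (k1 a + k2 a) := Finset.single_le_sum
      (f := fun a => k1 a + k2 a) (fun i _ => Nat.zero_le _) (Finset.mem_univ a)
    omega
  set S : Finset (Fin (2 * p) × Fin N) := Finset.univ.filter (fun v : Fin (2 * p) × Fin N =>
    (v.2 : ℕ) < (L + l) + 2 ∧ (v.2 : ℕ) ≠ q1 v.1 ∧ (v.2 : ℕ) ≠ L + q2 v.1) with hS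
  have hcard : 2 * p * (L + l) ≤ S.card :=
    card_S (2 * p) N (L + l) (by omega) q1 (fun a => L + q2 a)
  have hcf : ∀ v : Fin (2 * p) × Fin N, ∃ cf : Option (Fin b) × (Fin (2 * p) × Fin N), v ∈ S →
      (cf.1 = none → cf.2 ≠ v) ∧ ∀ u ∈ U, (cf.1 = none → dig b hb u v = dig b hb u cf.2) ∧
      ∀ d, cf.1 = some d → dig b hb u v = d := by
    intro v
    by_cases hv : v ∈ S
    swap
    · exact ⟨(none, v), fun h => absurd h hv⟩
    have hv' := hv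
    rw [hS, Finset.mem_filter] at hv'
    obtain ⟨-, h1, h2, h3⟩ := hv'
    have hkNv := hkN v.1
    suffices h : ∃ cf : Option (Fin b) × (Fin (2 * p) × Fin N),
        (cf.1 = none → cf.2 ≠ v) ∧ ∀ u ∈ U, (cf.1 = none → dig b hb u v = dig b hb u cf.2) ∧
        ∀ d, cf.1 = some d → dig b hb u v = d by
      obtain ⟨cf, hcf⟩ := h
      exact ⟨cf, fun _ => hcf⟩
    by_cases hL : (v.2 : ℕ) < L
    · by_cases hq : (v.2 : ℕ) + 1 ≤ q1 v.1
      · refine cf_eq (n := n) (z := z) hb U hU0 v (a1 v.1) (k1 v.1 + ((v.2 : ℕ) + 1)) (by omega)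
          ?_ fun u hu => ((hu.2 v.1).1.1 _ (by omega) hq).symm
        intro he
        apply hk1 v.1
        rw [Prod.mk.injEq] at he
        rw [Prod.mk.injEq]
        exact ⟨he.1, by omega⟩
      · exact cf_const (n := n) (z := z) hb U hU0 v (e1 v.1) fun u hu =>
          (hu.2 v.1).1.2 ((v.2 : ℕ) + 1) (by omega) (by omega)
    · obtain ⟨t, ht⟩ : ∃ t, (v.2 : ℕ) + 1 = L + t := ⟨(v.2 : ℕ) + 1 - L, by omega⟩
      by_cases hq : t ≤ q2 v.1
      · refine cf_eq (n := n) (z := z) hb U hU0 v (a2 v.1) (k2 v.1 + t) (by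
            have := hq2 v.1
            omega)
          ?_ fun u hu => ?_
        · intro he
          apply hk2 v.1
          rw [Prod.mk.injEq] at he
          rw [Prod.mk.injEq]
          exact ⟨he.1, by omega⟩
        · have := ((hu.2 v.1).2.1 t (by omega) hq).symm
          rw [ht, ← add_assoc]
          exact this
      · refine cf_const (n := n) (z := z) hb U hU0 v (e2 v.1) fun u hu => ?_
        have := (hu.2 v.1).2.2 t (by omega) (by omega)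
        rw [ht, ← add_assoc]
        exact this
  choose cf hcf using hcf
  set A : Finset (Fin (2 * p) × Fin N → Fin b) :=
    (Set.toFinite {x : Fin (2 * p) × Fin N → Fin b | ∃ u ∈ U, x = fun v => dig b hb u v}).toFinset
    with hA
  have hgr := hG (Fin (2 * p) × Fin N) b S (fun v => (cf v).2) (fun v => (cf v).1)
    (fun v hv => (hcf v hv).1) A (by
      intro x hx v hv
      rw [hA, Set.Finite.mem_toFinset] at hx
      obtain ⟨u, hu, rfl⟩ := hx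
      exact (hcf v hv).2 u hu)
  have hbox := hB b (2 * p) N hb A
  have hsub : U ⊆ {u : Fin (2 * p) → ℝ | (∀ a, u a ∈ Ico (0:ℝ) 1) ∧ ∃ x ∈ A,
      ∀ (a : Fin (2 * p)) (s : Fin N),
        ⌊(b : ℝ) ^ ((s : ℕ) + 1) * u a⌋₊ % b = (x (a, s) : ℕ)} := by
    intro u hu
    refine ⟨hu.1, fun v => dig b hb u v, ?_, fun a s => rfl⟩
    rw [hA, Set.Finite.mem_toFinset]
    exact ⟨u, hu, rfl⟩
  refine (measure_mono hsub).trans (hbox.trans ?_)
  have hb0 : (0 : ℝ) < b := by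
    have : 0 < b := by omega
    exact_mod_cast this
  have hb1 : (1 : ℝ) ≤ b := by
    have : 1 ≤ b := by omega
    exact_mod_cast this
  rw [← ENNReal.ofReal_natCast, ← ENNReal.ofReal_mul (Nat.cast_nonneg _)]
  apply ENNReal.ofReal_le_ofReal
  clear_value A S
  clear hsub hbox hcf hU0
  refine (sq_le_sq₀ (mul_nonneg (Nat.cast_nonneg _) (Real.rpow_nonneg hb0.le _))
    (Real.rpow_nonneg hb0.le _)).1 ?_
  have h1 : ((A.card : ℝ)) ^ 2 * (b : ℝ) ^ S.card ≤ (b : ℝ) ^ (2 * (2 * p * N)) := by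
    have := hgr
    simp only [Fintype.card_prod, Fintype.card_fin] at this
    exact_mod_cast this
  have h2 : (b : ℝ) ^ (2 * p * (L + l)) ≤ (b : ℝ) ^ S.card := pow_le_pow_right₀ hb1 hcard
  have h3 : ((b : ℝ) ^ (-(((2 * p : ℕ) : ℝ) * N))) ^ 2 = ((b : ℝ) ^ (2 * (2 * p * N)))⁻¹ := by
    rw [← Real.rpow_natCast, ← Real.rpow_mul hb0.le, ← Real.rpow_natCast, ← Real.rpow_neg hb0.le]
    congr 1
    push_cast
    ring
  have h4 : ((b : ℝ) ^ (-((p : ℝ) * (L + l)))) ^ 2 = ((b : ℝ) ^ (2 * p * (L + l)))⁻¹ := by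
    rw [← Real.rpow_natCast, ← Real.rpow_mul hb0.le, ← Real.rpow_natCast, ← Real.rpow_neg hb0.le]
    congr 1
    push_cast
    ring
  rw [mul_pow, h3, h4]
  have h5 : (0 : ℝ) < (b : ℝ) ^ (2 * (2 * p * N)) := by positivity
  have h6 : (0 : ℝ) < (b : ℝ) ^ (2 * p * (L + l)) := by positivity
  rw [← div_eq_mul_inv, div_le_iff₀ h5, inv_mul_eq_div, le_div_iff₀ h6]
  calc (A.card : ℝ) ^ 2 * (b : ℝ) ^ (2 * p * (L + l)) ≤ (A.card : ℝ) ^ 2 * (b : ℝ) ^ S.card := by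
        gcongr
    _ ≤ _ := h1

end Pool.Agent.W989.WL.Vols
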